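import Mathlib

set_option autoImplicit false

open Finset

namespace Pool.Agent.Results.MP_7d4b8e_co.Colour

/-- On the circle `ℝ / lam ℤ`, the point `y` lies on the unit arc `[x, x + 1)`. -/
def OnArc (lam x y : ℝ) : Prop := ∃ k : ℤ, x ≤ y + k * lam ∧ y + k * lam < x + 1

open Classical in
/-- `L` is the largest number of arcs, with starting points in `A`, through one point. -/
def IsLoad (lam : ℝ) (A : Finset ℝ) (L : ℕ) : Prop :=
  IsGreatest {m | ∃ y, m = (A.filter fun x => OnArc lam x y).card} L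

open Classical in
lemma core (lam : ℝ) (hl : 2 ≤ lam) (S : Finset ℝ) (hS : ∀ x ∈ S, 0 ≤ x ∧ x < lam) (L : ℕ)
    (hL : ∀ y, (S.filter fun x => OnArc lam x y).card ≤ L) (hd : L ∣ S.card) (x y : ℝ)
    (hx : x ∈ S) (hy : y ∈ S) (hxy : x < y) (p : ℝ) (h1 : OnArc lam x p) (h2 : OnArc lam y p) :
    (S.filter (· < x)).card % L ≠ (S.filter (· < y)).card % L := by
  set D := S.filter fun z => x ≤ z ∧ z < y with hD
  have e1 : (S.filter (· < y)).card = (S.filter (· < x)).card + D.card := by
    rw [← card_union_of_disjoint (disjoint_filter.2 fun z _ h h' => by linarith [h'.1]),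
      ← filter_or]
    congr 1
    refine filter_congr fun z _ => ⟨fun h => ?_, ?_⟩
    · rcases lt_or_ge z x with h' | h'
      · exact Or.inl h'
      · exact Or.inr ⟨h', h⟩
    · rintro (h | h)
      · linarith
      · exact h.2
  have e2 := card_filter_add_card_filter_not (s := S) fun z => x ≤ z ∧ z < y
  have e3 : 0 < D.card := card_pos.2 ⟨x, mem_filter.2 ⟨hx, le_rfl, hxy⟩⟩
  have e4 : 0 < (S.filter fun z => ¬ (x ≤ z ∧ z < y)).card :=
    card_pos.2 ⟨y, mem_filter.2 ⟨hy, fun h => lt_irrefl _ h.2⟩⟩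
  intro h
  have e5 : L ∣ D.card := by
    rw [e1] at h
    simpa using (Nat.modEq_iff_dvd' (Nat.le_add_right _ _)).1 h
  obtain ⟨k, k1, k2⟩ := h1
  obtain ⟨l, l1, l2⟩ := h2
  obtain ⟨x0, x1⟩ := hS x hx
  obtain ⟨y0, y1⟩ := hS y hy
  have hc : y < x + 1 ∨ x + lam < y + 1 := by
    rcases le_or_gt l k with h | h
    · have : (l : ℝ) ≤ k := by exact_mod_cast h
      have : (k : ℝ) ≤ l := by
        have : k < l + 1 := by
          by_contra h'
          have : (l : ℝ) + 1 ≤ k := by exact_mod_cast not_lt.1 h'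
          nlinarith
        exact_mod_cast (show k ≤ l by omega)
      left
      nlinarith
    · have : (k : ℝ) + 1 ≤ l := by exact_mod_cast h
      right
      nlinarith
  rcases hc with hc | hc
  · have h3 : insert y D ⊆ S.filter fun z => OnArc lam z y := by
      intro z hz
      rcases mem_insert.1 hz with rfl | hz
      · exact mem_filter.2 ⟨hy, 0, by simp⟩
      · obtain ⟨h4, h5, h6⟩ := mem_filter.1 hz
        exact mem_filter.2 ⟨h4, 0, by simp; constructor <;> linarith⟩
    have h4 := card_le_card h3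
    rw [card_insert_of_notMem (by simp [hD])] at h4
    have := hL y
    have := Nat.le_of_dvd e3 e5
    omega
  · have h3 : insert x (S.filter fun z => ¬ (x ≤ z ∧ z < y)) ⊆ S.filter fun z => OnArc lam z x := by
      intro z hz
      rcases mem_insert.1 hz with rfl | hz
      · exact mem_filter.2 ⟨hx, 0, by simp⟩
      · obtain ⟨h4, h5⟩ := mem_filter.1 hz
        obtain ⟨z0, z1⟩ := hS z h4
        rcases lt_or_ge z x with h6 | h6
        · exact mem_filter.2 ⟨h4, 0, by simp; constructor <;> linarith⟩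
        · have h7 : y ≤ z := not_lt.1 fun h => h5 ⟨h6, h⟩
          exact mem_filter.2 ⟨h4, 1, by simp; constructor <;> linarith⟩
    have h4 := card_le_card h3
    rw [card_insert_of_notMem (by simp [hxy])] at h4
    have := hL x
    rw [← e2] at hd
    have := Nat.le_of_dvd e4 ((Nat.dvd_add_right e5).1 hd)
    omega

/-- If at least `L - 1` further unit arcs, none of them in `A`, can be added to `A` without raising
the max load `L`, then `A` has a proper colouring with `L` colours. -/
theorem result (lam : ℝ) (hl : 2 ≤ lam) (A B : Finset ℝ) (L : ℕ)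
    (hA : ∀ x ∈ A, 0 ≤ x ∧ x < lam) (hB : ∀ x ∈ B, 0 ≤ x ∧ x < lam) (hAB : Disjoint A B)
    (hk : L - 1 ≤ B.card) (h1 : IsLoad lam A L) (h2 : IsLoad lam (A ∪ B) L) :
    ∃ c : A → Fin L, ∀ x y : A, x ≠ y → (∃ p, OnArc lam x p ∧ OnArc lam y p) → c x ≠ c y := by
  classical
  rcases Nat.eq_zero_or_pos L with rfl | hL
  · have : IsEmpty A := ⟨fun x => by
      have := h1.2 ⟨x.1, rfl⟩
      rw [Nat.le_zero, card_eq_zero, filter_eq_empty_iff] at this
      exact this x.2 ⟨0, by simp⟩⟩
    exact ⟨isEmptyElim, isEmptyElim⟩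
  obtain ⟨j, hj, hd⟩ : ∃ j, j ≤ L - 1 ∧ L ∣ A.card + j := by
    have := Nat.mod_lt A.card hL
    have h3 := Nat.div_add_mod A.card L
    rcases Nat.eq_zero_or_pos (A.card % L) with h | h
    · exact ⟨0, by omega, Nat.dvd_of_mod_eq_zero h⟩
    · exact ⟨L - A.card % L, by omega, A.card / L + 1, by rw [mul_add]; omega⟩
  obtain ⟨B', hB', rfl⟩ := exists_subset_card_eq (hj.trans hk)
  rw [← card_union_of_disjoint (hAB.mono_right hB')] at hd
  have key := core lam hl (A ∪ B') (fun x hx => (mem_union.1 hx).elim (hA x) fun h => hB x (hB' h))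
    L (fun y => le_trans (card_le_card (filter_subset_filter _ (union_subset_union_right hB')))
      (by convert h2.2 ⟨y, rfl⟩)) hd
  refine ⟨fun x => ⟨((A ∪ B').filter (· < x.1)).card % L, Nat.mod_lt _ hL⟩, ?_⟩
  rintro x y hxy ⟨p, h3, h4⟩ h
  rw [Fin.mk.injEq] at h
  rcases lt_or_gt_of_ne (Subtype.val_injective.ne hxy) with h5 | h5
  · exact key _ _ (mem_union_left _ x.2) (mem_union_left _ y.2) h5 p h3 h4 h
  · exact key _ _ (mem_union_left _ y.2) (mem_union_left _ x.2) h5 p h4 h3 h.symm

end Pool.Agent.Results.MP_7d4b8e_co.Colour
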